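import Mathlib
import Pool.Agent.K3h84.GD.Stm

/-!
# Adjoining the square root of a unit is unramified away from 2 (statement `S_UNR`)
-/

set_option autoImplicit false

namespace Pool.Agent.K3h3.GD.Unr

open NumberField IsDedekindDomain Polynomial

/-- an extension generated by `s` with `s ^ 2 = t` -/
theorem core (L M : Type) [Field L] [NumberField L] [Field M] [NumberField M] [Algebra L M]
    (t : L) (s : M) (hs : s ^ 2 = algebraMap L M t)
    (hgen : Algebra.adjoin L {s} = ⊤)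
    (p : ℕ) (hp : p.Prime) (h2 : p ≠ 2) (hd : ¬ (p : ℤ) ∣ discr L)
    (hv : ∀ v : HeightOneSpectrum (𝓞 L), (p : 𝓞 L) ∈ v.asIdeal → v.valuation L t = 1) :
    ¬ (p : ℤ) ∣ discr M := by
  intro hdvd
  have h1 := NumberField.natAbs_discr_eq_absNorm_differentIdeal_mul_natAbs_discr_pow L (𝓞 L) M (𝓞 M)
  have h4 : p ∣ Ideal.absNorm (differentIdeal (𝓞 L) (𝓞 M)) := by
    have h : p ∣ (discr M).natAbs := Int.natCast_dvd.1 hdvd
    rw [h1] at h
    rcases hp.dvd_mul.1 h with h | h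
    · exact h
    · exact absurd (Int.natCast_dvd.2 (hp.dvd_of_dvd_pow h)) hd
  obtain ⟨P, hP, hPu, hPd⟩ := Ideal.exists_isMaximal_dvd_of_dvd_absNorm' hp _ h4
  have hpP : (p : 𝓞 M) ∈ P := by
    have h : (p : ℤ) ∈ P.under ℤ := by
      rw [hPu]
      exact Ideal.mem_span_singleton_self _
    rw [Ideal.mem_comap] at h
    simpa using h
  have hpv : (p : 𝓞 L) ∈ P.under (𝓞 L) := by
    rw [Ideal.mem_comap, map_natCast]
    exact hpP
  have hPp : P.IsPrime := hP.isPrime
  let v : HeightOneSpectrum (𝓞 L) := ⟨P.under (𝓞 L), inferInstance, by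
    intro h
    rw [h, Ideal.mem_bot] at hpv
    exact hp.ne_zero (by exact_mod_cast hpv)⟩
  have ht1 : v.valuation L t = 1 := hv v hpv
  obtain ⟨n, d, hnd⟩ := v.exists_primeCompl_mul_eq_of_integer t ht1.le
  have hdv : v.valuation L (algebraMap (𝓞 L) L d) = 1 :=
    v.valuation_eq_one_iff_notMem.2 d.2
  have hnv : v.valuation L (algebraMap (𝓞 L) L n) = 1 := by
    rw [← hnd, map_mul, ht1, hdv, one_mul]
  -- the integral element
  have hsq : (algebraMap (𝓞 L) M d * s) ^ 2 = algebraMap (𝓞 L) M ((d : 𝓞 L) * n) := by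
    rw [mul_pow, hs, map_mul, IsScalarTower.algebraMap_apply (𝓞 L) L M n, ← hnd, map_mul,
      ← IsScalarTower.algebraMap_apply (𝓞 L) L M]
    ring
  have hint : IsIntegral (𝓞 L) (algebraMap (𝓞 L) M d * s) := by
    refine IsIntegral.of_pow (n := 2) (by norm_num) ?_
    rw [hsq]
    exact isIntegral_algebraMap
  have hintZ : IsIntegral ℤ (algebraMap (𝓞 L) M d * s) := isIntegral_trans _ hint
  obtain ⟨s', hs'⟩ : ∃ s' : 𝓞 M, algebraMap (𝓞 M) M s' = algebraMap (𝓞 L) M d * s :=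
    ⟨⟨_, hintZ⟩, rfl⟩
  have hsq' : s' ^ 2 = algebraMap (𝓞 L) (𝓞 M) ((d : 𝓞 L) * n) := by
    apply FaithfulSMul.algebraMap_injective (𝓞 M) M
    rw [map_pow, hs', hsq, ← IsScalarTower.algebraMap_apply]
  have hd0 : algebraMap (𝓞 L) L d ≠ 0 := by
    intro h
    rw [h, map_zero] at hdv
    exact zero_ne_one hdv
  have hadj : Algebra.adjoin L {algebraMap (𝓞 M) M s'} = ⊤ := by
    have hmem : algebraMap (𝓞 L) M d * s ∈ Algebra.adjoin L {algebraMap (𝓞 L) M d * s} :=
      Algebra.subset_adjoin (Set.mem_singleton _)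
    have h' := Subalgebra.smul_mem _ hmem ((algebraMap (𝓞 L) L d)⁻¹)
    have h : (algebraMap (𝓞 L) L d)⁻¹ • (algebraMap (𝓞 L) M d * s) = s := by
      rw [Algebra.smul_def, IsScalarTower.algebraMap_apply (𝓞 L) L M, ← mul_assoc, ← map_mul,
        inv_mul_cancel₀ hd0, map_one, one_mul]
    rw [h] at h'
    rw [eq_top_iff, ← hgen, Algebra.adjoin_le_iff, Set.singleton_subset_iff, hs']
    exact h'
  have hder := aeval_derivative_mem_differentIdeal (𝓞 L) L M s' hadj
  have hroot : aeval s' (X ^ 2 - C ((d : 𝓞 L) * n) : (𝓞 L)[X]) = 0 := by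
    rw [map_sub, map_pow, aeval_X, aeval_C, hsq', sub_self]
  have hint' : IsIntegral (𝓞 L) s' := Algebra.IsIntegral.isIntegral s'
  obtain ⟨g, hg⟩ := minpoly.isIntegrallyClosed_dvd hint' hroot
  have h2s : 2 * s' ∈ P := by
    have h5 : aeval s' (derivative (X ^ 2 - C ((d : 𝓞 L) * n) : (𝓞 L)[X])) ∈
        differentIdeal (𝓞 L) (𝓞 M) := by
      rw [hg, derivative_mul, map_add, map_mul, map_mul, minpoly.aeval, zero_mul, add_zero]
      exact Ideal.mul_mem_right _ _ hder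
    have h6 : aeval s' (derivative (X ^ 2 - C ((d : 𝓞 L) * n) : (𝓞 L)[X])) = 2 * s' := by
      rw [derivative_sub, derivative_C, sub_zero, derivative_X_pow, map_mul, map_pow, aeval_X,
        aeval_C, map_natCast]
      norm_num
    rw [h6] at h5
    exact Ideal.dvd_iff_le.1 hPd h5
  rcases hPp.mem_or_mem h2s with h | h
  · -- 2 ∈ P and p ∈ P
    have hc : Nat.Coprime 2 p := (Nat.coprime_primes Nat.prime_two hp).2 h2.symm
    have h7 : ((Nat.gcdA 2 p : ℤ) : 𝓞 M) * 2 + ((Nat.gcdB 2 p : ℤ) : 𝓞 M) * p = 1 := by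
      have h8 := Nat.gcd_eq_gcd_ab 2 p
      rw [hc.gcd_eq_one] at h8
      have h9 : (((1 : ℕ) : ℤ) : 𝓞 M) = ((((2 : ℕ) : ℤ) * Nat.gcdA 2 p + (p : ℤ) * Nat.gcdB 2 p : ℤ) : 𝓞 M) := by
        rw [h8]
      push_cast at h9
      rw [h9]
      ring
    refine hPp.ne_top ((Ideal.eq_top_iff_one P).2 ?_)
    rw [← h7]
    exact P.add_mem (P.mul_mem_left _ h) (P.mul_mem_left _ hpP)
  · -- s' ∈ P
    have h8 : (d : 𝓞 L) * n ∈ v.asIdeal := by
      change (d : 𝓞 L) * n ∈ P.under (𝓞 L)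
      rw [Ideal.mem_comap, ← hsq', sq]
      exact P.mul_mem_left _ h
    have h9 : v.valuation L (algebraMap (𝓞 L) L ((d : 𝓞 L) * n)) < 1 :=
      (v.valuation_lt_one_iff_mem (K := L) ((d : 𝓞 L) * n)).2 h8
    rw [map_mul, map_mul, hdv, hnv, one_mul] at h9
    exact lt_irrefl _ h9

theorem main : Pool.Agent.K3h84.GD.S_UNR := by
  intro L _ _ t ht
  by_cases hsq : ∃ u : L, u ^ 2 = t
  · obtain ⟨u, hu⟩ := hsq
    refine ⟨L, inferInstance, inferInstance, inferInstance, u, ?_, by rw [hu]; rfl,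
      fun p hp h2 hd hv => hd⟩
    rw [Module.finrank_self]
    norm_num
  · have hirr : Irreducible (X ^ 2 - C t : L[X]) := by
      rw [X_pow_sub_C_irreducible_iff_of_prime Nat.prime_two]
      intro b hb
      exact hsq ⟨b, hb⟩
    have hne : (X ^ 2 - C t : L[X]) ≠ 0 := hirr.ne_zero
    have : Fact (Irreducible (X ^ 2 - C t : L[X])) := ⟨hirr⟩
    have : CharZero (AdjoinRoot (X ^ 2 - C t : L[X])) :=
      charZero_of_injective_algebraMap (algebraMap L (AdjoinRoot (X ^ 2 - C t : L[X]))).injective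
    have : FiniteDimensional L (AdjoinRoot (X ^ 2 - C t : L[X])) :=
      (AdjoinRoot.powerBasis hne).finite
    have : FiniteDimensional ℚ (AdjoinRoot (X ^ 2 - C t : L[X])) :=
      FiniteDimensional.trans ℚ L _
    have : NumberField (AdjoinRoot (X ^ 2 - C t : L[X])) := { }
    have hroot : (AdjoinRoot.root (X ^ 2 - C t : L[X])) ^ 2 =
        algebraMap L (AdjoinRoot (X ^ 2 - C t : L[X])) t := by
      have h := AdjoinRoot.eval₂_root (X ^ 2 - C t : L[X])
      rw [eval₂_sub, eval₂_pow, eval₂_X, eval₂_C, sub_eq_zero] at h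
      exact h
    refine ⟨AdjoinRoot (X ^ 2 - C t : L[X]), inferInstance, inferInstance, inferInstance,
      AdjoinRoot.root _, ?_, hroot, ?_⟩
    · rw [(AdjoinRoot.powerBasis hne).finrank, AdjoinRoot.powerBasis_dim, natDegree_X_pow_sub_C]
    · intro p hp h2 hd hv
      exact core L _ t _ hroot AdjoinRoot.adjoinRoot_eq_top p hp h2 hd hv

end Pool.Agent.K3h3.GD.Unr
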